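import Pool.Agent.Q17.TP.Stm

set_option autoImplicit false

/-!
Job TOG of project TP (helper17): vanishing of the alternating sum over the chains fixed by `x` and `z`.
-/

open scoped Classical

namespace Pool.Agent.Q65.TP

open Pool.Agent.Q17.TP Pool.Agent.Q17.WR Pool.Agent.Y63.KR

theorem lower_le {Q : Type} [Group Q] [Finite Q] {p : ℕ} {U C : Subgroup Q} {σ : Set (Subgroup Q)} (hσ : IsPChain p σ)
    (hC : ∀ P ∈ σ, P ≤ C) : lower U σ ≤ C := by
  rcases lower_cases hσ.chain U with h | h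
  · rw [h]
    exact bot_le
  · exact hC _ h.1

theorem toggle_le {Q : Type} [Group Q] [Finite Q] {p : ℕ} {U C : Subgroup Q} {σ : Set (Subgroup Q)} (hσ : IsPChain p σ)
    (hU : U ≤ C) (hC : ∀ P ∈ σ, P ≤ C) : ∀ P ∈ toggle U σ, P ≤ C := by
  intro P hP
  unfold toggle at hP
  split_ifs at hP
  · exact hC P hP.1
  · rcases hP with hP | hP
    · rw [hP]
      exact sup_le (lower_le hσ hC) hU
    · exact hC P hP

theorem WC_eq_zero {Q : Type} [Group Q] [Finite Q] (p : ℕ) [Fact p.Prime] (C U : Subgroup Q) (K : Set Q)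
    (hU : IsPGroup p U) (hU1 : U ≠ ⊥) (hUC : U ≤ C) (hUK : U ≤ Subgroup.closure K)
    (hKU : ∀ x ∈ K, conjSub x U = U) : WC p C K = 0 := by
  have : Fintype {σ : Set (Subgroup Q) // IsPChain p σ} := Fintype.ofFinite _
  unfold WC
  rw [finsum_eq_sum_of_fintype]
  have h0 : ∀ σ : {σ : Set (Subgroup Q) // IsPChain p σ},
      (-1 : ℤ) ^ σ.1.ncard * (if (∀ P ∈ σ.1, P ≤ C) ∧ Fx K σ.1 then 1 else 0) =
      if (∀ P ∈ σ.1, P ≤ C) ∧ Fx K σ.1 then (-1 : ℤ) ^ σ.1.ncard else 0 := by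
    intro σ
    split_ifs <;> simp
  simp only [h0]
  rw [← Finset.sum_filter]
  refine Finset.sum_involution
    (fun σ hσ => ⟨toggle U σ.1, (toggle_mem hU hU1 hUK hKU σ.2 (Finset.mem_filter.mp hσ).2.2).1⟩)
    ?_ ?_ ?_ ?_
  · intro σ hσ
    change (-1 : ℤ) ^ σ.1.ncard + (-1) ^ (toggle U σ.1).ncard = 0
    rw [ncard_toggle]
    ring
  · intro σ hσ _ h
    have h1 : toggle U σ.1 = σ.1 := congrArg Subtype.val h
    have h2 := ncard_toggle U σ.1
    rw [h1] at h2
    have h3 : ((-1 : ℤ)) ^ σ.1.ncard ≠ 0 := pow_ne_zero _ (by norm_num)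
    omega
  · intro σ hσ
    have h4 := (Finset.mem_filter.mp hσ).2
    rw [Finset.mem_filter]
    exact ⟨Finset.mem_univ _, toggle_le σ.2 hUC h4.1, (toggle_mem hU hU1 hUK hKU σ.2 h4.2).2⟩
  · intro σ hσ
    apply Subtype.ext
    exact toggle_toggle U σ.1

theorem t_TOG : S_TOG := by
  intro Q _ _ p _ C x z m hxC hz hm hzx hp
  set j := orderOf x / p ^ (orderOf x).factorization p with hj
  have hx0 : orderOf x ≠ 0 := (orderOf_pos x).ne'
  have hjv : p ^ (orderOf x).factorization p * j = orderOf x := Nat.ordProj_mul_ordCompl_eq_self _ _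
  have hj0 : j ≠ 0 := by
    intro h1
    rw [h1, mul_zero] at hjv
    exact hx0 hjv.symm
  have hord : orderOf (x ^ j) = p ^ (orderOf x).factorization p := by
    rw [orderOf_pow_of_dvd hj0 ⟨_, by rw [mul_comm]; exact hjv.symm⟩]
    exact Nat.div_eq_of_eq_mul_left (Nat.pos_of_ne_zero hj0) hjv.symm
  have hv : (orderOf x).factorization p ≠ 0 := by
    have := (Fact.out : p.Prime).factorization_pos_of_dvd hx0 hp
    omega
  have hconj : ∀ y : Q, (∃ k : ℕ, y * x * y⁻¹ = x ^ k) →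
      conjSub y (Subgroup.zpowers (x ^ j)) = Subgroup.zpowers (x ^ j) := by
    rintro y ⟨k, hk⟩
    have hle : conjSub y (Subgroup.zpowers (x ^ j)) ≤ Subgroup.zpowers (x ^ j) := by
      unfold conjSub
      rw [MonoidHom.map_zpowers, Subgroup.zpowers_le]
      change y * x ^ j * y⁻¹ ∈ _
      rw [← conj_pow, hk, ← pow_mul, mul_comm, pow_mul]
      exact Subgroup.pow_mem _ (Subgroup.mem_zpowers _) _
    refine Subgroup.eq_of_le_of_card_ge hle ?_
    exact (Nat.card_congr (Subgroup.equivMapOfInjective _ _ (MulAut.conj y).injective).toEquiv).le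
  have hxU : conjSub x (Subgroup.zpowers (x ^ j)) = Subgroup.zpowers (x ^ j) :=
    hconj x ⟨1, by group⟩
  have hzU' : conjSub z⁻¹ (Subgroup.zpowers (x ^ j)) = Subgroup.zpowers (x ^ j) := by
    refine hconj z⁻¹ ⟨m, ?_⟩
    rw [inv_inv]
    conv_lhs => rw [← hzx]
    group
  have hzU : conjSub z (Subgroup.zpowers (x ^ j)) = Subgroup.zpowers (x ^ j) := by
    conv_lhs => rw [← hzU']
    exact conjSub_conjSub_inv _ _
  refine WC_eq_zero p C (Subgroup.zpowers (x ^ j)) {x, z} ?_ ?_ ?_ ?_ ?_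
  · refine IsPGroup.of_card (n := (orderOf x).factorization p) ?_
    rw [Nat.card_zpowers, hord]
  · intro h
    rw [Subgroup.zpowers_eq_bot] at h
    rw [h, orderOf_one] at hord
    have h5 := Nat.one_lt_pow hv (Fact.out : p.Prime).one_lt
    omega
  · rw [Subgroup.zpowers_le]
    exact Subgroup.pow_mem _ hxC _
  · rw [Subgroup.zpowers_le]
    have h6 : x ∈ ({x, z} : Set Q) := Or.inl rfl
    exact Subgroup.pow_mem _ (Subgroup.subset_closure h6) _
  · rintro y (rfl | rfl)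
    · exact hxU
    · exact hzU

end Pool.Agent.Q65.TP
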